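import Pool.Agent.R390.SF.Main
import Pool.Agent.R390.SF.DegI

/-!
# Finiteness of maximally degenerate pure integral systems over number fields

`F` is a number field, `n ≥ 1`, `w ≥ 0`, `S` a finite set of primes, `Λ` a set of primes. There are
only finitely many integral systems `(T_ℓ)_ℓ` of rank `n` over `F`, up to isomorphism of the `T_ℓ` for
all `ℓ` in `Λ`, which are pure of weight `w`, with good reduction outside `S` and semistable reduction
in `S`, and which, for every `ℓ` in `Λ`, are maximally degenerate (one Jordan block) at all the places
of `F` above a prime `p ≠ ℓ` in `S` (`V_ℓ` for all and `T_ℓ / ℓ` for almost all `ℓ` in `Λ`). No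
polarization and no condition on Frobenius elements. For each such system there are only finitely many
Galois stable lattices in the adelic realisation up to multiplication by rational numbers (on `Λ`).

The file `MaximallyDegenerate` of this folder has the case `F = ℚ`. Its proof uses that `ℚ` has no
unramified extensions. Here the determinants of the stable subspaces are characters of the absolute
Galois group of `F`, and we apply Minkowski's theorem to their transfers to the absolute Galois group of
`ℚ`; this gives only the total weight over all the places above a prime number, and the comparison with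
the total weight of `V_ℓ` at the places of maximal degeneration shows that `V_ℓ` is irreducible.
-/

set_option autoImplicit false

namespace Pool.Agent.Results.MP_78e9a5_nt.DegenerateOverNumberFields

open Pool.Agent.R390.SF Pool.Agent.R390.SF.IntegralSystem NumberField

/-- The class of the systems of the theorem. -/
def InClass {F : SubFld ℚ} {n : ℕ} (S : Finset ℕ) (w : ℕ) (Λ : Set ℕ) (T : IntegralSystem F n) : Prop :=
  T.PureSystem S w ∧ T.IsDegenerate S Λ

theorem result (F : SubFld ℚ) [FiniteDimensional ℚ F] (n w : ℕ) (hn : 0 < n) (S : Finset ℕ)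
    (Λ : Set ℕ) :
    (∃ (m : ℕ) (T : Fin m → IntegralSystem F n), (∀ i, InClass S w Λ (T i)) ∧
      ∀ T' : IntegralSystem F n, InClass S w Λ T' → ∃ i, IsomorphicOn Λ (T i) T') ∧
    ∀ T : IntegralSystem F n, InClass S w Λ T →
      ∃ (m : ℕ) (L : Fin m → ∀ (ℓ : ℕ) [Fact ℓ.Prime], Submodule ℤ_[ℓ] (Fin n → ℚ_[ℓ])),
        (∀ i, T.IsLattice (L i)) ∧
          ∀ L' : (∀ (ℓ : ℕ) [Fact ℓ.Prime], Submodule ℤ_[ℓ] (Fin n → ℚ_[ℓ])), T.IsLattice L' →
            ∃ i, ProportionalOn Λ (L i) L' :=
  ⟨finiteness hn w S Λ (InClass S w Λ) (fun _ hT => hT.1.toGoodSystem)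
    (fun _ hT => irr_of_deg hn hT.1 hT.2), fun _ hT => lattices hn (irr_of_deg hn hT.1 hT.2)⟩

end Pool.Agent.Results.MP_78e9a5_nt.DegenerateOverNumberFields
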