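import Pool.Agent.R390.SF.PolNum

/-!
# Finiteness of the polarized integral systems with regular Hodge numbers in small rank

`F` is a number field, `S` and `S'` are finite sets of primes, `w` is a natural number and `h r`
(`0 ≤ r ≤ w`) are natural numbers. The integral systems `(T_ℓ)_ℓ` over `F` of the theorem have the
properties in the problem of the realisations of a pure motive of weight `w` over `F` with a lattice:
Hodge numbers `h^{r,w-r} = h r`, pure good reduction outside `S`, semistable reduction in `S`. In
addition they have a polarization `T_ℓ × T_ℓ → ℤ_ℓ(-w)` whose degree is prime to `ℓ` for `ℓ` outside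
`S'` (`S'` contains `S` and the small primes, for which the theory of Fontaine and Laffaille does not
apply to `T_ℓ / ℓ`). The representations may be reducible, also modulo `ℓ`.

The condition `NoIsotropic` on `F`, `w`, `h` and `ℓ` is a condition on numbers. It holds for instance
if all the Hodge numbers are at most `1` and
* `F = ℚ`, or `F` has only one place above `ℓ`, and the rank is at most `5`, or at most `7` if `w` is odd
  (for example rank four, `w = 3` and `h = (1, 1, 1, 1)`, Calabi-Yau threefolds with `h^{2,1} = 1`);
* `F` has odd degree over `ℚ` and the rank is at most `3`.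

If it holds for the primes `ℓ` in `Λ` then up to isomorphism of the `T_ℓ`, `ℓ` in `Λ`, there are only
finitely many such systems.

The determinant of an isotropic stable subspace is a character of the absolute Galois group of `F`,
whose transfer to the absolute Galois group of `ℚ` is by Minkowski's theorem, up to a power, a power of
the cyclotomic character; the purity and the Hodge numbers exclude this. So the polarization splits
`V_ℓ` and `T_ℓ / ℓ` into orthogonal sums of irreducible representations. Modulo almost all `ℓ`, the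
self-dual lattices are then unique up to isomorphism. The exceptional primes are the same for all
systems with the same Frobenius polynomials at finitely many places.
-/

set_option autoImplicit false

namespace Pool.Agent.Results.MP_78e9a5_nt.PolarizedRegularHodge

open Pool.Agent.R390.SF Pool.Agent.R390.SF.IntegralSystem NumberField

theorem result :
    (∀ (F : SubFld ℚ) [FiniteDimensional ℚ F] (n : ℕ), 0 < n → ∀ (w : ℕ) (h : ℕ → ℕ)
      (S S' : Finset ℕ) (Λ : Set ℕ), (∀ ℓ : ℕ, ℓ.Prime → ℓ ∈ Λ → NoIsotropic F w h ℓ) →
      ∃ (m : ℕ) (T : Fin m → IntegralSystem F n), (∀ i, (T i).PolarizedSystem S S' w h) ∧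
        ∀ T' : IntegralSystem F n, T'.PolarizedSystem S S' w h → ∃ i, IsomorphicOn Λ (T i) T') ∧
    (∀ (F : SubFld ℚ) [FiniteDimensional ℚ F] (w ℓ : ℕ) (h : ℕ → ℕ),
      (Module.finrank ℚ F = 1 ∨ ∃! 𝔩 : Ideal (𝓞 F), 𝔩.IsMaximal ∧ (ℓ : 𝓞 F) ∈ 𝔩) →
        Rigid w h → NoIsotropic F w h ℓ) ∧
    (∀ (w : ℕ) (h : ℕ → ℕ), (∀ r ≤ w, h r ≤ 1) →
      (∑ r ∈ Finset.range (w + 1), h r ≤ 5 ∨ (Odd w ∧ ∑ r ∈ Finset.range (w + 1), h r ≤ 7)) →
        Rigid w h) ∧
    ∀ (F : SubFld ℚ) [FiniteDimensional ℚ F] (w ℓ : ℕ) (h : ℕ → ℕ), Odd (Module.finrank ℚ F) →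
      (∀ r ≤ w, h r ≤ 1) → ∑ r ∈ Finset.range (w + 1), h r ≤ 3 → NoIsotropic F w h ℓ := by
  exact ⟨fun F _ n hn w h S S' Λ hΛ => pol_finiteness hn w h S S' Λ hΛ,
    fun F _ w ℓ h => noIsotropic_of_rigid, fun w h => rigid_of_card,
    fun F _ w ℓ h => noIsotropic_of_odd⟩

end Pool.Agent.Results.MP_78e9a5_nt.PolarizedRegularHodge
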