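import Pool.Agent.R390.SF.Main
import Pool.Agent.R390.SF.MonoI

/-!
# Finiteness of the integral systems over number fields whose Jordan blocks exclude all dimensions

`F` is a number field, `n ≥ 1`, `w ≥ 0`, `S` and `S₁` are finite sets of primes, `Λ` a set of primes.
The integral systems `(T_ℓ)_ℓ` of rank `n` over `F` of the theorem are pure of weight `w`, with good
reduction outside `S` and semistable reduction in `S`. At the places above the primes in `S₁` they
satisfy the weight-monodromy conjecture (`MonodromySystem`), for the primes `ℓ` in `Λ` and modulo almost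
all `ℓ` in `Λ`. For each `ℓ` in `Λ` and each `0 < d < n` such that `w [F : ℚ] d` is even, there is a
place of `F` above a prime `p ≠ ℓ` in `S₁` where `d` is not the sum of the sizes of some of the Jordan
blocks of the monodromy (`Excludes`).

There are only finitely many such systems, up to isomorphism of the `T_ℓ` for all `ℓ` in `Λ`, and for
each of them there are only finitely many Galois stable lattices in the adelic realisation up to
multiplication by rational numbers (on `Λ`). There is no polarization.

Examples of the condition on the blocks: one block of size `n` at one place (and any blocks at the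
other places above the same prime); `F` of odd degree, `w` odd, `n = 6` and two blocks of size `3` at
one place; `n = 4`, a block of size `3` and one of size `1` at one place and two blocks of size `2` at
another place.

The proof: by Minkowski's theorem for `ℚ` the transfer of the determinant of a stable subspace has the
total weight `w [F : ℚ] d`; by the injectivity of `N ^ i` the weights at each place above `p` are at most
`w` in the mean, so that the stable subspace is balanced at each of the places, and then its dimension
is the sum of the sizes of some of the Jordan blocks at each place. So `V_ℓ`, and almost all `T_ℓ / ℓ`,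
are irreducible.
-/

set_option autoImplicit false

namespace Pool.Agent.Results.MP_78e9a5_nt.PureMonodromyOverNumberFields

open Pool.Agent.R390.SF Pool.Agent.R390.SF.IntegralSystem NumberField

/-- The class of the systems of the theorem. -/
def InClass {F : SubFld ℚ} {n : ℕ} (S S₁ : Finset ℕ) (w : ℕ) (Λ : Set ℕ)
    (T : IntegralSystem F n) : Prop :=
  T.PureSystem S w ∧ ∃ R : Ideal (𝓞 F) → ℕ → Polynomial ℤ,
    T.MonodromySystem S₁ w Λ R ∧ Excludes F n w S₁ Λ R

theorem result (F : SubFld ℚ) [FiniteDimensional ℚ F] (n w : ℕ) (hn : 0 < n) (S S₁ : Finset ℕ)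
    (Λ : Set ℕ) :
    (∃ (m : ℕ) (T : Fin m → IntegralSystem F n), (∀ i, InClass S S₁ w Λ (T i)) ∧
      ∀ T' : IntegralSystem F n, InClass S S₁ w Λ T' → ∃ i, IsomorphicOn Λ (T i) T') ∧
    ∀ T : IntegralSystem F n, InClass S S₁ w Λ T →
      ∃ (m : ℕ) (L : Fin m → ∀ (ℓ : ℕ) [Fact ℓ.Prime], Submodule ℤ_[ℓ] (Fin n → ℚ_[ℓ])),
        (∀ i, T.IsLattice (L i)) ∧
          ∀ L' : (∀ (ℓ : ℕ) [Fact ℓ.Prime], Submodule ℤ_[ℓ] (Fin n → ℚ_[ℓ])), T.IsLattice L' →
            ∃ i, ProportionalOn Λ (L i) L' := by
  have hI : ∀ T : IntegralSystem F n, InClass S S₁ w Λ T → T.IsIrreducible Λ := by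
    rintro T ⟨h1, R, h2, h3⟩
    exact irr_of_mono h1 h2 h3
  exact ⟨finiteness hn w S Λ (InClass S S₁ w Λ) (fun _ hT => hT.1.toGoodSystem) hI,
    fun _ hT => lattices hn (hI _ hT)⟩

end Pool.Agent.Results.MP_78e9a5_nt.PureMonodromyOverNumberFields
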