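import Pool.Agent.R390.SF.Main
import Pool.Agent.R390.SF.Hodge

/-!
# Finiteness of the pure integral systems of rank two over number fields of odd degree

`F` is a number field, `S` a finite set of primes and `w`, `r` are natural numbers with `2 r < w`. The
integral systems `(T_ℓ)_ℓ` of rank `2` over `F` of the theorem have all the properties in the problem
of the realisations of a pure motive of weight `w` over `F` with a lattice: Hodge numbers
`h^{r,w-r} = h^{w-r,r} = 1`, pure good reduction outside `S`, semistable reduction in `S`. There is no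
other condition (no polarization, no condition on the Frobenius elements or on the monodromy).

If `F` has odd degree over `ℚ` then there are only finitely many such systems, up to isomorphism of the
`T_ℓ` for all `ℓ`, and for each of them there are only finitely many Galois stable lattices in the
adelic realisation up to multiplication by rational numbers. If `F` has even degree this holds if only
the primes `ℓ` are considered above which `F` has only one place.

The determinant of a stable line would be a character of the absolute Galois group of `F`, whose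
transfer to the absolute Galois group of `ℚ` is by Minkowski's theorem, up to a power, a power of the
cyclotomic character; the purity and the Hodge numbers exclude this.
-/

set_option autoImplicit false

namespace Pool.Agent.Results.MP_78e9a5_nt.RankTwoOddDegree

open Pool.Agent.R390.SF Pool.Agent.R390.SF.IntegralSystem NumberField

theorem result (F : SubFld ℚ) [FiniteDimensional ℚ F] (w r : ℕ) (hr : 2 * r < w) (S : Finset ℕ)
    (Λ : Set ℕ) (hΛ : ∀ ℓ ∈ Λ, Odd (Module.finrank ℚ F) ∨
      ∃! 𝔩 : Ideal (𝓞 F), 𝔩.IsMaximal ∧ (ℓ : 𝓞 F) ∈ 𝔩) :
    (∃ (m : ℕ) (T : Fin m → IntegralSystem F 2), (∀ i, (T i).HodgeSystem S w (rankTwo r w)) ∧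
      ∀ T' : IntegralSystem F 2, T'.HodgeSystem S w (rankTwo r w) →
        ∃ i, IsomorphicOn Λ (T i) T') ∧
    ∀ T : IntegralSystem F 2, T.HodgeSystem S w (rankTwo r w) →
      ∃ (m : ℕ) (L : Fin m → ∀ (ℓ : ℕ) [Fact ℓ.Prime], Submodule ℤ_[ℓ] (Fin 2 → ℚ_[ℓ])),
        (∀ i, T.IsLattice (L i)) ∧
          ∀ L' : (∀ (ℓ : ℕ) [Fact ℓ.Prime], Submodule ℤ_[ℓ] (Fin 2 → ℚ_[ℓ])), T.IsLattice L' →
            ∃ i, ProportionalOn Λ (L i) L' := by
  have hI : ∀ T : IntegralSystem F 2, T.HodgeSystem S w (rankTwo r w) → T.IsIrreducible Λ :=
    fun T hT => irr_of_two (fun ℓ _ hℓ => hΛ ℓ hℓ) hr hT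
  exact ⟨finiteness two_pos w S Λ (fun T => T.HodgeSystem S w (rankTwo r w))
    (fun T hT => hT.toGoodSystem) hI, fun T hT => lattices two_pos (hI T hT)⟩

end Pool.Agent.Results.MP_78e9a5_nt.RankTwoOddDegree
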